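import Mathlib

/-!
# MP_c02c06_co, Q1: maximal multiplicity in almost Golomb sequences
-/

open Finset

namespace Pool.Agent.Results.MP_c02c06_co.MaxMultiplicity

/-- `a` (with `a 0 = 0`; the subtraction is truncated, so that `a (n - i) = 0` for `i ≥ n`) is a
nondecreasing sequence of positive integers `a 1, a 2, ...` with
`a (a n + a (n - 1) + ... + a (n - r + 1)) = n` for all `n ≥ 1` -/
def IsSolution (r : ℕ) (a : ℕ → ℕ) : Prop :=
  a 0 = 0 ∧ (∀ n, 1 ≤ n → 1 ≤ a n) ∧ Monotone a ∧
    ∀ n, 1 ≤ n → a (∑ i ∈ range r, a (n - i)) = n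

/-- the almost Golomb sequence: the solution each of whose terms is as small as possible given the
terms before it -/
def IsAlmostGolomb (r : ℕ) (a : ℕ → ℕ) : Prop :=
  IsSolution r a ∧ ∀ b, IsSolution r b → ∀ n, (∀ m < n, a m = b m) → a n ≤ b n

/-- the number of times that `n` occurs -/
noncomputable def occ (a : ℕ → ℕ) (n : ℕ) : ℕ∞ := {i : ℕ | 1 ≤ i ∧ a i = n}.encard

/-! ### Construction -/

/-- the next term -/
def step (r : ℕ) (f : ℕ → ℕ) (n : ℕ) : ℕ :=
  if n = 0 then 1 else if n < 4 then 2 else
    if ∑ i ∈ range r, f (f n + 1 - i) = n + 1 then f n + 1 else f n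

def pre (r : ℕ) : ℕ → ℕ → ℕ
  | 0 => fun _ => 0
  | n + 1 => Function.update (pre r n) (n + 1) (step r (pre r n) n)

def c (r n : ℕ) : ℕ := pre r n n

lemma pre_eq (r : ℕ) {k n : ℕ} (h : k ≤ n) : pre r n k = c r k := by
  induction n with
  | zero =>
    obtain rfl : k = 0 := by omega
    rfl
  | succ n ih =>
    rcases h.eq_or_lt with rfl | h
    · rfl
    · rw [pre, Function.update_of_ne (by omega), ih (by omega)]

lemma c_succ' (r n : ℕ) : c r (n + 1) = step r (pre r n) n := by
  rw [c, pre, Function.update_self]

lemma c0 (r : ℕ) : c r 0 = 0 := rfl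
lemma c1 (r : ℕ) : c r 1 = 1 := by rw [c_succ']; rfl
lemma c2 (r : ℕ) : c r 2 = 2 := by rw [c_succ']; rfl
lemma c3 (r : ℕ) : c r 3 = 2 := by rw [c_succ']; rfl
lemma c4 (r : ℕ) : c r 4 = 2 := by rw [c_succ']; rfl

lemma c_succ_or (r : ℕ) {n : ℕ} (hn : 4 ≤ n) : c r (n + 1) = c r n ∨ c r (n + 1) = c r n + 1 := by
  rw [c_succ', step, if_neg (by omega), if_neg (by omega), pre_eq r (le_refl n)]
  split_ifs
  · right; rfl
  · left; rfl

lemma c_le (r : ℕ) {n : ℕ} (hn : 4 ≤ n) : c r n + 2 ≤ n := by
  induction n, hn using Nat.le_induction with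
  | base => rw [c4]
  | succ n hn ih => rcases c_succ_or r hn with h | h <;> omega

def P (r m : ℕ) : ℕ := ∑ i ∈ range r, c r (m - i)

lemma c_succ (r : ℕ) {n : ℕ} (hn : 4 ≤ n) :
    c r (n + 1) = if P r (c r n + 1) = n + 1 then c r n + 1 else c r n := by
  rw [c_succ', step, if_neg (by omega), if_neg (by omega), pre_eq r (le_refl n)]
  have : ∑ i ∈ range r, pre r n (c r n + 1 - i) = P r (c r n + 1) := by
    apply sum_congr rfl
    intro i _
    exact pre_eq r (by have := c_le r hn; omega)
  rw [this]

lemma c_mono (r : ℕ) : Monotone (c r) := by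
  apply monotone_nat_of_le_succ
  intro n
  by_cases hn : 4 ≤ n
  · rcases c_succ_or r hn with h | h <;> omega
  · interval_cases n <;> simp [c0, c1, c2, c3, c4]

lemma c_step (r n : ℕ) : c r (n + 1) ≤ c r n + 1 := by
  by_cases hn : 4 ≤ n
  · rcases c_succ_or r hn with h | h <;> omega
  · interval_cases n <;> simp [c0, c1, c2, c3, c4]

lemma c_add (r n k : ℕ) : c r (n + k) ≤ c r n + k := by
  induction k with
  | zero => simp
  | succ k ih =>
    have := c_step r (n + k)
    rw [← add_assoc]
    omega

lemma c_pos (r : ℕ) {n : ℕ} (hn : 1 ≤ n) : 1 ≤ c r n := by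
  have := c_mono r hn
  rwa [c1] at this

lemma c_le_self (r n : ℕ) : c r n ≤ n := by
  have := c_add r 0 n
  rw [c0, zero_add] at this
  omega

lemma P_succ {r : ℕ} (hr : 1 ≤ r) (m : ℕ) : P r (m + 1) + c r (m + 1 - r) = P r m + c r (m + 1) := by
  obtain ⟨s, rfl⟩ : ∃ s, r = s + 1 := ⟨r - 1, by omega⟩
  unfold P
  rw [sum_range_succ', sum_range_succ]
  have : ∀ i ∈ range s, c (s + 1) (m + 1 - (i + 1)) = c (s + 1) (m - i) := by
    intro i _
    congr 1
    omega
  rw [sum_congr rfl this, show m + 1 - (s + 1) = m - s by omega, Nat.sub_zero]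
  ring

lemma P_mono (r : ℕ) : Monotone (P r) := by
  intro a b hab
  apply sum_le_sum
  intro i _
  exact c_mono r (by omega)

variable {r : ℕ}

lemma P_three (hr : 3 ≤ r) : P r 3 = 5 := by
  unfold P
  have : ∑ i ∈ range 3, c r (3 - i) = ∑ i ∈ range r, c r (3 - i) := by
    apply sum_subset (range_subset_range.mpr hr)
    intro i _ hi
    rw [mem_range, not_lt] at hi
    rw [show 3 - i = 0 by omega, c0]
  rw [← this]
  simp [sum_range_succ, c1, c2, c3]

lemma c5 (hr : 3 ≤ r) : c r 5 = 3 := by
  rw [c_succ r (le_refl 4), c4, if_pos (P_three hr)]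

/-- `P m` is the first index of the value `m` -/
lemma first (hr : 5 ≤ r) {m : ℕ} (hm : 3 ≤ m) :
    5 ≤ P r m ∧ c r (P r m) = m ∧ c r (P r m - 1) = m - 1 := by
  induction m using Nat.strong_induction_on with
  | _ m ih =>
    rcases hm.eq_or_lt with rfl | hm
    · rw [P_three (by omega)]
      exact ⟨le_refl _, c5 (by omega), c4 r⟩
    obtain ⟨m, rfl⟩ : ∃ k, m = k + 1 := ⟨m - 1, by omega⟩
    obtain ⟨h1, h2, h3⟩ := ih m (by omega) (by omega)
    have hPs := P_succ (show 1 ≤ r by omega) m
    have hlt : c r (m + 1 - r) < c r (m + 1) := by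
      by_cases hmr : m + 1 ≤ r
      · rw [show m + 1 - r = 0 by omega, c0]
        exact c_pos r (by omega)
      · obtain ⟨x, hx⟩ : ∃ x, m + 1 = x + r := ⟨m + 1 - r, by omega⟩
        rw [hx, Nat.add_sub_cancel]
        by_cases hv : c r x < 3
        · have e1 := c_mono r (show 5 ≤ x + r by omega)
          rw [c5 (by omega)] at e1
          omega
        · have e0 := c_le_self r x
          obtain ⟨g1, g2, g3⟩ := ih (c r x) (by omega) (by omega)
          obtain ⟨k1, k2, k3⟩ := ih (c r x + 1) (by omega) (by omega)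
          have e2 : P r (c r x) ≤ x := by
            by_contra hlt
            have := c_mono r (show x ≤ P r (c r x) - 1 by omega)
            omega
          have e3 := P_succ (show 1 ≤ r by omega) (c r x)
          have e4 : c r (c r x + 1) ≤ c r (c r x + 1 - r) + r := by
            have := c_add r (c r x + 1 - r) r
            have := c_mono r (show c r x + 1 ≤ c r x + 1 - r + r by omega)
            omega
          have e5 := c_mono r (show P r (c r x + 1) ≤ x + r by omega)
          omega
    have hP : P r m < P r (m + 1) := by omega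
    have hstay : ∀ k, P r m ≤ k → k < P r (m + 1) → c r k = m := by
      intro k hk
      induction k, hk using Nat.le_induction with
      | base => intro _; exact h2
      | succ k hk ihk =>
        intro hk2
        rw [c_succ r (by omega), ihk (by omega), if_neg (by omega)]
    have h4 := hstay (P r (m + 1) - 1) (by omega) (by omega)
    refine ⟨by omega, ?_, ?_⟩
    · obtain ⟨k, hk⟩ : ∃ k, P r (m + 1) = k + 1 := ⟨P r (m + 1) - 1, by omega⟩
      rw [hk, Nat.add_sub_cancel] at h4
      rw [hk, c_succ r (by omega), h4, if_pos hk]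
    · rw [h4]
      omega

lemma lt_first_iff (hr : 5 ≤ r) {m k : ℕ} (hm : 3 ≤ m) : P r m ≤ k ↔ m ≤ c r k := by
  obtain ⟨h1, h2, h3⟩ := first hr hm
  constructor
  · intro h
    have := c_mono r h
    omega
  · intro h
    by_contra hlt
    have := c_mono r (show k ≤ P r m - 1 by omega)
    omega

/-! ### The upper bound -/

lemma three_le (hr : 5 ≤ r) : 3 ≤ c r r := by
  have := c_mono r hr
  rwa [c5 (by omega)] at this

/-- the number of occurrences of `v ≥ 3` is at most `c r r` -/
lemma upper (hr : 5 ≤ r) {v : ℕ} (hv : 3 ≤ v) : c r (v + 1) ≤ c r (v + 1 - r) + c r r := by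
  induction v using Nat.strong_induction_on with
  | _ v ih =>
    have hA := three_le hr
    by_cases hvr : v + 1 ≤ r
    · have := c_mono r hvr
      omega
    by_contra hlt
    push Not at hlt
    set A := c r r with hAdef
    set u := c r (v + 1 - r) with hu
    have hu1 : 1 ≤ u := c_pos r (by omega)
    have hur : u ≤ v + 1 - r := c_le_self r _
    by_cases hu2 : u = 1
    · -- `v = r`
      have e1 : v = r := by
        by_contra hne
        have := c_mono r (show 2 ≤ v + 1 - r by omega)
        rw [c2] at this
        omega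
      have := c_step r r
      rw [e1] at hlt
      omega
    have f1 : v + 1 - r < P r (u + 1) := by
      by_contra hle
      have := (lt_first_iff hr (show 3 ≤ u + 1 by omega)).mp (not_lt.mp hle)
      omega
    have f2 : P r (u + A + 1) ≤ v + 1 := (lt_first_iff hr (by omega)).mpr (by omega)
    have f3 : P r (u + A + 1) < P r (u + 1) + r := by omega
    by_cases hcase : r ≤ u + A + 1
    · -- every window of length `A` contains a new value
      have key : ∀ y, y ≤ u + 1 → c r y + 1 ≤ c r (y + A) := by
        intro y hy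
        by_cases hw : c r y < 3
        · have hy5 : y < 5 := by
            by_contra hy5
            have := c_mono r (show 5 ≤ y by omega)
            rw [c5 (by omega)] at this
            omega
          by_cases hy0 : y = 0
          · subst hy0
            rw [c0, zero_add]
            exact c_pos r (by omega)
          by_cases hy1 : y = 1
          · subst hy1
            have := c_mono r (show 4 ≤ 1 + A by omega)
            rw [c4] at this
            rw [c1]
            exact this
          · have := c_mono r (show 5 ≤ y + A by omega)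
            rw [c5 (by omega)] at this
            omega
        · have e0 := c_le_self r y
          have e1 : P r (c r y) ≤ y := (lt_first_iff hr (by omega)).mpr (le_refl _)
          have e2 := P_succ (show 1 ≤ r by omega) (c r y)
          have e3 := ih (c r y) (by omega) (by omega)
          exact (lt_first_iff hr (by omega)).mp (by omega)
      have hsum : P r (u + 1) + r ≤ P r (u + A + 1) := by
        have : P r (u + 1) + r = ∑ i ∈ range r, (c r (u + 1 - i) + 1) := by
          rw [sum_add_distrib, sum_const, card_range, smul_eq_mul, mul_one]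
          rfl
        rw [this]
        apply sum_le_sum
        intro i hi
        rw [mem_range] at hi
        by_cases hiu : i ≤ u + 1
        · have := key (u + 1 - i) (by omega)
          rwa [show u + 1 - i + A = u + A + 1 - i by omega] at this
        · rw [show u + 1 - i = 0 by omega, c0, zero_add]
          exact c_pos r (by omega)
      omega
    · -- the initial segment
      have hPsum : ∀ m, m ≤ r → P r m = ∑ j ∈ range m, c r (j + 1) := by
        intro m hm
        induction m with
        | zero =>
          unfold P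
          simp [c0]
        | succ m ihm =>
          have := P_succ (show 1 ≤ r by omega) m
          rw [show m + 1 - r = 0 by omega, c0, ihm (by omega)] at this
          rw [sum_range_succ]
          omega
      have e1 := hPsum (u + A + 1) (by omega)
      have e2 := hPsum (u + 1) (by omega)
      have e3 := hPsum (A + 1) (by omega)
      have e4 : r < P r (A + 1) := by
        by_contra hle
        have := (lt_first_iff hr (show 3 ≤ A + 1 by omega)).mp (not_lt.mp hle)
        omega
      have e5 : ∑ j ∈ range (u + A + 1), c r (j + 1) =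
          ∑ j ∈ range (u + 1), c r (j + 1) + ∑ j ∈ range A, c r (u + 1 + j + 1) := by
        rw [show u + A + 1 = (u + 1) + A by ring, sum_range_add]
      have e6 : ∑ j ∈ range (A + 1), c r (j + 1) = ∑ j ∈ range A, c r (j + 2) + 1 := by
        rw [sum_range_succ', c1]
      have e7 : ∑ j ∈ range A, c r (j + 2) ≤ ∑ j ∈ range A, c r (u + 1 + j + 1) := by
        apply sum_le_sum
        intro j _
        exact c_mono r (by omega)
      omega

/-! ### The sequence is the almost Golomb sequence -/

lemma c_solution (hr : 5 ≤ r) : IsSolution r (c r) := by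
  refine ⟨c0 r, fun n hn => c_pos r hn, c_mono r, ?_⟩
  intro n hn
  change c r (P r n) = n
  by_cases h3 : 3 ≤ n
  · exact (first hr h3).2.1
  have e1 := P_succ (show 1 ≤ r by omega) 0
  have e2 : P r 2 + c r (2 - r) = P r 1 + c r 2 := P_succ (show 1 ≤ r by omega) 1
  have e0 : P r 0 = 0 := by unfold P; simp [c0]
  rw [show 0 + 1 - r = 0 by omega, c0, e0, zero_add, c1] at e1
  rw [show 2 - r = 0 by omega, c0, c2] at e2
  rcases (show n = 1 ∨ n = 2 by omega) with rfl | rfl
  · rw [show P r 1 = 1 by omega, c1]
  · rw [show P r 2 = 3 by omega, c3]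

lemma c_least (hr : 5 ≤ r) {b : ℕ → ℕ} (hb : IsSolution r b) (n : ℕ)
    (h : ∀ m < n, c r m = b m) : c r n ≤ b n := by
  obtain ⟨b0, bpos, bmono, bsol⟩ := hb
  have hsum : ∀ m, m < n → ∑ i ∈ range r, b (m - i) = P r m := by
    intro m hm
    apply sum_congr rfl
    intro i _
    rw [h _ (by omega)]
  have hb2 : 2 ≤ b 2 := by
    by_contra hlt
    have e1 := bpos 1 (le_refl _)
    have e2 := bmono (show 1 ≤ 2 by omega)
    have e3 := bsol 2 (by omega)
    have e4 : ∑ i ∈ range r, b (2 - i) = b 2 + b 1 := by
      have : ∑ i ∈ range 2, b (2 - i) = ∑ i ∈ range r, b (2 - i) := by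
        apply sum_subset (range_subset_range.mpr (by omega))
        intro i _ hi
        rw [mem_range, not_lt] at hi
        rw [show 2 - i = 0 by omega, b0]
      rw [← this]
      simp [sum_range_succ]
    rw [e4, show b 2 + b 1 = 2 by omega] at e3
    omega
  by_cases hn : n < 5
  · interval_cases n
    · rw [c0]
      exact Nat.zero_le _
    · rw [c1]
      exact bpos 1 (le_refl _)
    · rw [c2]
      exact hb2
    · rw [c3]
      exact hb2.trans (bmono (by omega))
    · rw [c4]
      exact hb2.trans (bmono (by omega))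
  · obtain ⟨k, rfl⟩ : ∃ k, n = k + 1 := ⟨n - 1, by omega⟩
    have hk := c_le r (show 4 ≤ k by omega)
    rw [c_succ r (by omega)]
    split_ifs with hP
    · have := bsol (c r k + 1) (by omega)
      rw [hsum _ (by omega), hP] at this
      omega
    · rw [h k (by omega)]
      exact bmono (by omega)

lemma c_almost (hr : 5 ≤ r) : IsAlmostGolomb r (c r) :=
  ⟨c_solution hr, fun _ hb n h => c_least hr hb n h⟩

lemma unique {a b : ℕ → ℕ} (ha : IsAlmostGolomb r a) (hb : IsAlmostGolomb r b) : a = b := by
  funext n
  induction n using Nat.strong_induction_on with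
  | _ n ih =>
    exact le_antisymm (ha.2 b hb.1 n ih) (hb.2 a ha.1 n fun m hm => (ih m hm).symm)

lemma occ_eq (hr : 5 ≤ r) {n : ℕ} (hn : 3 ≤ n) :
    occ (c r) n = ((c r (n + 1) - c r (n + 1 - r) : ℕ) : ℕ∞) := by
  have h1 : {i : ℕ | 1 ≤ i ∧ c r i = n} = ((Finset.Ico (P r n) (P r (n + 1)) : Finset ℕ) : Set ℕ) := by
    ext i
    rw [Set.mem_ofPred_eq, coe_Ico, Set.mem_Ico, lt_first_iff hr hn, ← not_le,
      lt_first_iff hr (by omega)]
    constructor
    · rintro ⟨_, h⟩
      omega
    · rintro ⟨h, h'⟩
      refine ⟨?_, by omega⟩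
      by_contra h0
      rw [show i = 0 by omega, c0] at h
      omega
  rw [occ, h1, Set.encard_coe_eq_coe_finsetCard, Nat.card_Ico]
  have := P_succ (show 1 ≤ r by omega) n
  have := c_mono r (show n + 1 - r ≤ n + 1 by omega)
  congr 1
  omega

lemma occ_le (hr : 5 ≤ r) (n : ℕ) : occ (c r) n ≤ ((c r r : ℕ) : ℕ∞) := by
  have hA := three_le hr
  by_cases hn : 3 ≤ n
  · rw [occ_eq hr hn]
    have := upper hr hn
    exact_mod_cast (show c r (n + 1) - c r (n + 1 - r) ≤ c r r by omega)
  · have h1 : {i : ℕ | 1 ≤ i ∧ c r i = n} ⊆ ((Finset.Icc (max n 1) 4 ∩ (if n = 1 then {1} else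
        Finset.Icc 2 4) : Finset ℕ) : Set ℕ) := by
      rintro i ⟨hi1, hi⟩
      have h4 : i ≤ 4 := by
        by_contra h5
        have := c_mono r (show 5 ≤ i by omega)
        rw [c5 (by omega)] at this
        omega
      rw [mem_coe, mem_inter, mem_Icc]
      have e1 := c1 r
      have e2 := c2 r
      have e3 := c3 r
      have e4 := c4 r
      interval_cases i
      · rw [e1] at hi
        subst hi
        simp
      · rw [e2] at hi
        subst hi
        simp
      · rw [e3] at hi
        subst hi
        simp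
      · rw [e4] at hi
        subst hi
        simp
    refine (Set.encard_le_encard h1).trans ?_
    rw [Set.encard_coe_eq_coe_finsetCard]
    have : (Finset.Icc (max n 1) 4 ∩ (if n = 1 then {1} else Finset.Icc 2 4) : Finset ℕ).card ≤
        3 := by
      interval_cases n <;> decide
    exact_mod_cast this.trans hA

lemma occ_top (hr : 5 ≤ r) : occ (c r) (r - 1) = ((c r r : ℕ) : ℕ∞) := by
  rw [occ_eq hr (by omega), show r - 1 + 1 = r by omega, Nat.sub_self, c0, Nat.sub_zero]

theorem result (r : ℕ) (hr : 5 ≤ r) : ∃ a : ℕ → ℕ,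
    IsAlmostGolomb r a ∧ (∀ b, IsAlmostGolomb r b → b = a) ∧
    (∀ n, 3 ≤ n → ∀ m, a (n - 1) ≤ m → m < a n →
      a (m + ∑ i ∈ range (r - 1), a (n - 1 - i)) ≠ n) ∧
    (⨆ n : ℕ, occ a n) = occ a (r - 1) ∧ occ a (r - 1) = (a r : ℕ∞) := by
  refine ⟨c r, c_almost hr, fun b hb => unique hb (c_almost hr), ?_, ?_, occ_top hr⟩
  · intro n hn m h1 h2
    obtain ⟨k, rfl⟩ : ∃ k, n = k + 1 := ⟨n - 1, by omega⟩
    have hs := c_step r k
    rw [Nat.add_sub_cancel] at h1
    have hm : m = c r k := by omega
    have hP : P r (k + 1) = c r (k + 1) + ∑ i ∈ range (r - 1), c r (k + 1 - 1 - i) := by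
      obtain ⟨s, rfl⟩ : ∃ s, r = s + 1 := ⟨r - 1, by omega⟩
      unfold P
      rw [sum_range_succ', Nat.sub_zero, add_comm, Nat.add_sub_cancel]
      congr 1
      apply sum_congr rfl
      intro i _
      congr 1
      omega
    have h3 := (first hr hn).2.2
    rw [hm]
    have : P r (k + 1) - 1 = c r k + ∑ i ∈ range (r - 1), c r (k + 1 - 1 - i) := by omega
    rw [← this, h3]
    omega
  · apply le_antisymm
    · apply iSup_le
      intro n
      rw [occ_top hr]
      exact occ_le hr n
    · exact le_iSup (fun n => occ (c r) n) (r - 1)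

end Pool.Agent.Results.MP_c02c06_co.MaxMultiplicity
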